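import Pool.Agent.Helper58.FX.St.Stubs

/-! Project FX (MP_81910f_an, captain helper58), piece FX-17: bounded compact functions multiply. -/

set_option autoImplicit false
open MeasureTheory Filter Topology Helper17.LevelSets
open scoped InnerProductSpace ComplexConjugate ENNReal

namespace Pool.Agent.Helper71.FX
open Helper58.FX

variable {μ : Measure Tor}

lemma memLp_bmul {b : Tor → ℂ} (hbm : AEStronglyMeasurable b μ) {C : ℝ}
    (hC : ∀ᵐ x ∂μ, ‖b x‖ ≤ C) {f : Tor → ℂ} (hf : MemLp f 2 μ) :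
    MemLp (fun x => b x * f x) 2 μ := by
  refine MemLp.of_le_mul (c := C) hf (hbm.mul hf.1) ?_
  filter_upwards [hC] with x hx
  rw [norm_mul]
  exact mul_le_mul_of_nonneg_right hx (norm_nonneg _)

/-- multiplication by a bounded function -/
noncomputable def bmul {b : Tor → ℂ} (hbm : AEStronglyMeasurable b μ) {C : ℝ}
    (hC : ∀ᵐ x ∂μ, ‖b x‖ ≤ C) : Lp ℂ 2 μ →L[ℂ] Lp ℂ 2 μ :=
  LinearMap.mkContinuous
    { toFun := fun f => (memLp_bmul hbm hC (Lp.memLp f)).toLp _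
      map_add' := by
        intro f g
        rw [← MemLp.toLp_add (memLp_bmul hbm hC (Lp.memLp f)) (memLp_bmul hbm hC (Lp.memLp g))]
        refine MemLp.toLp_congr _ _ ?_
        filter_upwards [Lp.coeFn_add f g] with x hx
        rw [hx, Pi.add_apply, Pi.add_apply, mul_add]
      map_smul' := by
        intro c f
        rw [RingHom.id_apply, ← MemLp.toLp_const_smul c (memLp_bmul hbm hC (Lp.memLp f))]
        refine MemLp.toLp_congr _ _ ?_
        filter_upwards [Lp.coeFn_smul c f] with x hx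
        rw [hx, Pi.smul_apply, Pi.smul_apply, smul_eq_mul, smul_eq_mul, mul_left_comm] } C
    (by
      intro f
      refine Lp.norm_le_mul_norm_of_ae_le_mul ?_
      filter_upwards [MemLp.coeFn_toLp (memLp_bmul hbm hC (Lp.memLp f)), hC] with x hx hx2
      show ‖((memLp_bmul hbm hC (Lp.memLp f)).toLp _ : Tor → ℂ) x‖ ≤ _
      rw [hx, norm_mul]
      exact mul_le_mul_of_nonneg_right hx2 (norm_nonneg _))

lemma bmul_coe {b : Tor → ℂ} (hbm : AEStronglyMeasurable b μ) {C : ℝ}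
    (hC : ∀ᵐ x ∂μ, ‖b x‖ ≤ C) (f : Lp ℂ 2 μ) :
    (bmul hbm hC f : Tor → ℂ) =ᵐ[μ] fun x => b x * f x :=
  MemLp.coeFn_toLp (memLp_bmul hbm hC (Lp.memLp f))

lemma UU_coe {n : ℕ} (h : MeasurePreserving (T n) μ μ) (v : Lp ℂ 2 μ) :
    (UU h v : Tor → ℂ) =ᵐ[μ] (v : Tor → ℂ) ∘ T n :=
  Lp.coeFn_compMeasurePreserving v h

lemma UU_mul {n : ℕ} (h : MeasurePreserving (T n) μ μ) {α α' : ℂ} {v v' u : Lp ℂ 2 μ}
    (hv : UU h v = α • v) (hv' : UU h v' = α' • v')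
    (hu : (u : Tor → ℂ) =ᵐ[μ] fun x => v x * v' x) : UU h u = (α * α') • u := by
  refine Lp.ext ?_
  have e1 := UU_coe h v
  have e2 := UU_coe h v'
  rw [hv] at e1
  rw [hv'] at e2
  filter_upwards [UU_coe h u, h.quasiMeasurePreserving.ae_eq_comp hu, e1, e2,
    Lp.coeFn_smul α v, Lp.coeFn_smul α' v', Lp.coeFn_smul (α * α') u, hu] with x k1 k2 k3 k4 k5 k6 k7 k8
  rw [k1, k2, k7, Pi.smul_apply, k8]
  rw [k5] at k3
  rw [k6] at k4
  simp only [Function.comp_apply, Pi.smul_apply, smul_eq_mul] at k3 k4 ⊢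
  rw [← k3, ← k4]
  ring

/-- if multiplication by `b` maps joint eigenvectors into the compact part, it maps the compact
part into itself -/
lemma bmul_mem {h2 : MeasurePreserving (T 2) μ μ} {h3 : MeasurePreserving (T 3) μ μ}
    {b : Tor → ℂ} (hbm : AEStronglyMeasurable b μ) {C : ℝ} (hC : ∀ᵐ x ∂μ, ‖b x‖ ≤ C)
    (h : ∀ v : Lp ℂ 2 μ, (∃ α β : ℂ, v ∈ Eg (UU h2) (UU h3) α β) →
      bmul hbm hC v ∈ Hc (UU h2) (UU h3)) {v : Lp ℂ 2 μ} (hv : v ∈ Hc (UU h2) (UU h3)) :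
    bmul hbm hC v ∈ Hc (UU h2) (UU h3) := by
  have h1 : Hc (UU h2) (UU h3) ≤
      (Hc (UU h2) (UU h3)).comap (bmul hbm hC : Lp ℂ 2 μ →ₗ[ℂ] Lp ℂ 2 μ) := by
    refine Submodule.topologicalClosure_minimal _ ?_ ?_
    · rw [Submodule.span_le]
      intro u hu
      exact h u hu
    · exact (isClosed_Hc (UU h2) (UU h3)).preimage (bmul hbm hC).continuous
  exact h1 hv

/-- FX-17 -/
theorem inC_mul [IsProbabilityMeasure μ] (h2 : MeasurePreserving (T 2) μ μ)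
    (h3 : MeasurePreserving (T 3) μ μ) (hE : Erg (ft μ)) {f g : Tor → ℂ} (hf : InC h2 h3 f)
    (hb : ∃ C : ℝ, ∀ᵐ x ∂μ, ‖f x‖ ≤ C) (hg : InC h2 h3 g) :
    InC h2 h3 (fun x => f x * g x) := by
  obtain ⟨C, hC⟩ := hb
  obtain ⟨hf1, hf2⟩ := hf
  obtain ⟨hg1, hg2⟩ := hg
  refine ⟨memLp_bmul hf1.1 hC hg1, ?_⟩
  have key : bmul hf1.1 hC (hg1.toLp g) ∈ Hc (UU h2) (UU h3) := by
    refine bmul_mem hf1.1 hC ?_ hg2
    rintro χ ⟨α, β, hχ⟩
    obtain ⟨c, hc⟩ := St.norm_const h2 h3 hE hχ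
    have hc' : ∀ᵐ x ∂μ, ‖(χ : Tor → ℂ) x‖ ≤ c := by
      filter_upwards [hc] with x hx
      exact hx.le
    have h4 : bmul (Lp.memLp χ).1 hc' (hf1.toLp f) ∈ Hc (UU h2) (UU h3) := by
      refine bmul_mem (Lp.memLp χ).1 hc' ?_ hf2
      rintro ψ ⟨α', β', hψ⟩
      refine Submodule.le_topologicalClosure _ (Submodule.subset_span ?_)
      refine ⟨α * α', β * β', ?_, ?_⟩
      · exact UU_mul h2 hχ.1 hψ.1 (bmul_coe _ _ ψ)
      · exact UU_mul h3 hχ.2 hψ.2 (bmul_coe _ _ ψ)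
    have h5 : bmul hf1.1 hC χ = bmul (Lp.memLp χ).1 hc' (hf1.toLp f) := by
      refine Lp.ext ?_
      filter_upwards [bmul_coe hf1.1 hC χ, bmul_coe (Lp.memLp χ).1 hc' (hf1.toLp f),
        hf1.coeFn_toLp] with x k1 k2 k3
      rw [k1, k2, k3, mul_comm]
    rw [h5]
    exact h4
  have h6 : (memLp_bmul hf1.1 hC hg1).toLp (fun x => f x * g x)
      = bmul hf1.1 hC (hg1.toLp g) := by
    refine Lp.ext ?_
    filter_upwards [MemLp.coeFn_toLp (memLp_bmul hf1.1 hC hg1),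
      bmul_coe hf1.1 hC (hg1.toLp g), hg1.coeFn_toLp] with x k1 k2 k3
    rw [k1, k2, k3]
  rw [h6]
  exact key

end Pool.Agent.Helper71.FX
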